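import Mathlib

namespace Pool.Agent.Results.MP_b6277e_co.Yes

open Polynomial Filter Topology

/-- `A` is a realization of the sign pattern `S`. -/
def Realizes (S : Matrix (Fin 4) (Fin 4) SignType) (A : Matrix (Fin 4) (Fin 4) ℝ) : Prop :=
  ∀ i j, SignType.sign (A i j) = S i j

/-- Every monic real quartic is the characteristic polynomial of a realization of `S`. -/
def SpectrallyArbitrary (S : Matrix (Fin 4) (Fin 4) SignType) : Prop :=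
  ∀ p : ℝ[X], p.Monic → p.natDegree = 4 → ∃ A, Realizes S A ∧ A.charpoly = p

/-- `B` agrees with `A` at every nonzero entry of `A`. -/
def Superpattern (B A : Matrix (Fin 4) (Fin 4) SignType) : Prop :=
  ∀ i j, A i j ≠ 0 → B i j = A i j

/-- The pattern `T₂ ⊕ T₂`. -/
def T : Matrix (Fin 4) (Fin 4) SignType :=
  !![1, 1, 0, 0; -1, -1, 0, 0; 0, 0, 1, 1; 0, 0, -1, -1]

section
variable {R : Type} [CommRing R]

def c0 (A : Matrix (Fin 4) (Fin 4) R) : R :=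
    A 0 0 * A 1 1 * A 2 2 * A 3 3 - A 0 0 * A 1 1 * A 2 3 * A 3 2 - A 0 0 * A 1 2 * A 2 1 * A
    3 3 + A 0 0 * A 1 2 * A 2 3 * A 3 1 + A 0 0 * A 1 3 * A 2 1 * A 3 2 - A 0 0 * A 1 3 * A 2
    2 * A 3 1 - A 0 1 * A 1 0 * A 2 2 * A 3 3 + A 0 1 * A 1 0 * A 2 3 * A 3 2 + A 0 1 * A 1 2
    * A 2 0 * A 3 3 - A 0 1 * A 1 2 * A 2 3 * A 3 0 - A 0 1 * A 1 3 * A 2 0 * A 3 2 + A 0 1 *
    A 1 3 * A 2 2 * A 3 0 + A 0 2 * A 1 0 * A 2 1 * A 3 3 - A 0 2 * A 1 0 * A 2 3 * A 3 1 - A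
    0 2 * A 1 1 * A 2 0 * A 3 3 + A 0 2 * A 1 1 * A 2 3 * A 3 0 + A 0 2 * A 1 3 * A 2 0 * A 3
    1 - A 0 2 * A 1 3 * A 2 1 * A 3 0 - A 0 3 * A 1 0 * A 2 1 * A 3 2 + A 0 3 * A 1 0 * A 2 2
    * A 3 1 + A 0 3 * A 1 1 * A 2 0 * A 3 2 - A 0 3 * A 1 1 * A 2 2 * A 3 0 - A 0 3 * A 1 2 *
    A 2 0 * A 3 1 + A 0 3 * A 1 2 * A 2 1 * A 3 0

def c1 (A : Matrix (Fin 4) (Fin 4) R) : R :=
    -(A 0 0 * A 1 1 * A 2 2 - A 0 0 * A 1 2 * A 2 1 - A 0 1 * A 1 0 * A 2 2 + A 0 1 * A 1 2 * A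
    2 0 + A 0 2 * A 1 0 * A 2 1 - A 0 2 * A 1 1 * A 2 0 + A 0 0 * A 1 1 * A 3 3 - A 0 0 * A 1
    3 * A 3 1 - A 0 1 * A 1 0 * A 3 3 + A 0 1 * A 1 3 * A 3 0 + A 0 3 * A 1 0 * A 3 1 - A 0 3
    * A 1 1 * A 3 0 + A 0 0 * A 2 2 * A 3 3 - A 0 0 * A 2 3 * A 3 2 - A 0 2 * A 2 0 * A 3 3 +
    A 0 2 * A 2 3 * A 3 0 + A 0 3 * A 2 0 * A 3 2 - A 0 3 * A 2 2 * A 3 0 + A 1 1 * A 2 2 * A
    3 3 - A 1 1 * A 2 3 * A 3 2 - A 1 2 * A 2 1 * A 3 3 + A 1 2 * A 2 3 * A 3 1 + A 1 3 * A 2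
    1 * A 3 2 - A 1 3 * A 2 2 * A 3 1)

def c2 (A : Matrix (Fin 4) (Fin 4) R) : R :=
    A 0 0 * A 1 1 - A 0 1 * A 1 0 + A 0 0 * A 2 2 - A 0 2 * A 2 0 + A 0 0 * A 3 3 - A 0 3 * A
    3 0 + A 1 1 * A 2 2 - A 1 2 * A 2 1 + A 1 1 * A 3 3 - A 1 3 * A 3 1 + A 2 2 * A 3 3 - A 2
    3 * A 3 2

def c3 (A : Matrix (Fin 4) (Fin 4) R) : R :=
    -(A 0 0 + A 1 1 + A 2 2 + A 3 3)

def cf (A : Matrix (Fin 4) (Fin 4) R) : Fin 4 → R := ![c0 A, c1 A, c2 A, c3 A]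

/-- add `t` to the entry at `q` -/
def bump (A : Matrix (Fin 4) (Fin 4) R) (q : Fin 4 × Fin 4) (t : R) :
    Matrix (Fin 4) (Fin 4) R :=
  fun u v => if (u, v) = q then A u v + t else A u v

end

lemma det_eq (A : Matrix (Fin 4) (Fin 4) ℝ) : A.det = c0 A := by
  simp [Matrix.det_succ_row_zero, Fin.sum_univ_succ, Fin.succAbove, c0]
  ring

lemma charpoly_eq (A : Matrix (Fin 4) (Fin 4) ℝ) :
    A.charpoly = X ^ 4 + C (c3 A) * X ^ 3 + C (c2 A) * X ^ 2 + C (c1 A) * X + C (c0 A) := by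
  apply Polynomial.funext
  intro x
  rw [Matrix.eval_charpoly, det_eq]
  simp [c0, c1, c2, c3, Matrix.scalar_apply, Matrix.diagonal_apply]
  ring

lemma quartic_eq (p : ℝ[X]) (hm : p.Monic) (hd : p.natDegree = 4) :
    p = X ^ 4 + C (p.coeff 3) * X ^ 3 + C (p.coeff 2) * X ^ 2 + C (p.coeff 1) * X
      + C (p.coeff 0) := by
  have h4 : p.coeff 4 = 1 := by rw [← hd]; exact hm
  conv_lhs => rw [p.as_sum_range_C_mul_X_pow' (n := 5) (by omega)]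
  simp [Finset.sum_range_succ, h4]
  ring

lemma cf_bump (A : Matrix (Fin 4) (Fin 4) ℝ) (q : Fin 4 × Fin 4) (t : ℝ) :
    cf (bump A q t) = cf A + t • (cf (bump A q 1) - cf A) := by
  obtain ⟨a, b⟩ := q
  funext m
  fin_cases a <;> fin_cases b <;> fin_cases m <;> simp [cf, c0, c1, c2, c3, bump] <;> ring

lemma cf_cast (N : Matrix (Fin 4) (Fin 4) ℤ) (m : Fin 4) :
    cf (fun u v => (N u v : ℝ)) m = ((cf N m : ℤ) : ℝ) := by
  fin_cases m <;> simp [cf, c0, c1, c2, c3]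

lemma contDiff_cf {E : Type} [NormedAddCommGroup E] [NormedSpace ℝ E]
    (A : E → Matrix (Fin 4) (Fin 4) ℝ) (h : ∀ u v, ContDiff ℝ 1 (fun x => A x u v)) :
    ContDiff ℝ 1 (fun x => cf (A x)) := by
  rw [contDiff_pi]
  intro m
  fin_cases m <;> simp only [cf, c0, c1, c2, c3] <;> simp <;> fun_prop

/-- nilpotent-Jacobian method for superpatterns -/
lemma NJ (N : Matrix (Fin 4) (Fin 4) ℝ) (S : Matrix (Fin 4) (Fin 4) SignType)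
    (pos : Fin 4 → Fin 4 × Fin 4)
    (hS : ∀ a b, N a b ≠ 0 → SignType.sign (N a b) = S a b) (hN : cf N = 0)
    (hpos : ∀ k, N (pos k).1 (pos k).2 ≠ 0)
    (hJ : c0 (fun m k => cf (bump N (pos k) 1) m) ≠ 0) : SpectrallyArbitrary S := by
  classical
  obtain ⟨A, hA⟩ : ∃ A : (Fin 4 → ℝ) × ℝ → Matrix (Fin 4) (Fin 4) ℝ, A = fun x u v =>
      N u v + (∑ k, if (u, v) = pos k then x.1 k else 0)
        + x.2 * (if N u v = 0 then (S u v : ℝ) else 0) := ⟨_, rfl⟩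
  have hAc : ∀ u v, ContDiff ℝ 1 (fun x => A x u v) := by
    intro u v
    rw [hA]
    refine (contDiff_const.add (ContDiff.sum fun k _ => ?_)).add (by fun_prop)
    split_ifs <;> fun_prop
  have hA0 : A 0 = N := by
    rw [hA]; funext u v; simp
  obtain ⟨Ψ, hΨ⟩ : ∃ Ψ : (Fin 4 → ℝ) × ℝ → (Fin 4 → ℝ) × ℝ, Ψ = fun x => (cf (A x), x.2) :=
    ⟨_, rfl⟩
  have hΨc : ContDiff ℝ 1 Ψ := by
    rw [hΨ]; exact (contDiff_cf A hAc).prodMk contDiff_snd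
  have hst : HasStrictFDerivAt Ψ (fderiv ℝ Ψ 0) 0 := hΨc.contDiffAt.hasStrictFDerivAt (by simp)
  have hΨ0 : Ψ 0 = 0 := by rw [hΨ]; simp [hA0, hN]
  -- directional derivatives
  have hdir : ∀ (d : (Fin 4 → ℝ) × ℝ), HasDerivAt (fun t : ℝ => Ψ (t • d)) (fderiv ℝ Ψ 0 d) 0 := by
    intro d
    have h1 : HasDerivAt (fun t : ℝ => t • d) d 0 := by
      simpa using (hasDerivAt_id (0 : ℝ)).smul_const d
    have h2 : HasFDerivAt Ψ (fderiv ℝ Ψ 0) ((fun t : ℝ => t • d) 0) := by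
      simpa using hst.hasFDerivAt
    exact h2.comp_hasDerivAt 0 h1
  have hsnd : ∀ d, (fderiv ℝ Ψ 0 d).2 = d.2 := by
    intro d
    have h1 : HasDerivAt (fun t : ℝ => (Ψ (t • d)).2) (fderiv ℝ Ψ 0 d).2 0 :=
      (ContinuousLinearMap.snd ℝ (Fin 4 → ℝ) ℝ).hasFDerivAt.comp_hasDerivAt 0 (hdir d)
    have h2 : HasDerivAt (fun t : ℝ => (Ψ (t • d)).2) d.2 0 := by
      rw [hΨ]
      simpa using (hasDerivAt_id (0 : ℝ)).mul_const d.2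
    exact h1.unique h2
  have hcol : ∀ k, fderiv ℝ Ψ 0 (Pi.single k 1, 0) = (cf (bump N (pos k) 1), 0) := by
    intro k
    have h2 : HasDerivAt (fun t : ℝ => Ψ (t • (Pi.single k 1, 0)))
        (cf (bump N (pos k) 1), 0) 0 := by
      have e : (fun t : ℝ => Ψ (t • ((Pi.single k 1 : Fin 4 → ℝ), (0 : ℝ))))
          = fun t : ℝ => t • (cf (bump N (pos k) 1), (0 : ℝ)) := by
        funext t
        have : A (t • ((Pi.single k 1 : Fin 4 → ℝ), (0 : ℝ))) = bump N (pos k) t := by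
          rw [hA]; funext u v
          simp only [bump, Prod.smul_mk, smul_zero, zero_mul, add_zero]
          by_cases h : (u, v) = pos k
          · rw [if_pos h, Finset.sum_eq_single k]
            · simp [h]
            · intro j _ hj
              simp [hj]
            · simp
          · rw [if_neg h, Finset.sum_eq_zero, add_zero]
            intro j _
            by_cases hj : j = k
            · subst hj; simp [h]
            · simp [hj]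
        rw [hΨ]
        simp only [this, cf_bump N (pos k) t, hN]
        simp
      rw [e]
      simpa using (hasDerivAt_id (0 : ℝ)).smul_const (cf (bump N (pos k) 1), (0 : ℝ))
    exact (hdir _).unique h2
  have hsurj : (fderiv ℝ Ψ 0).range = ⊤ := by
    rw [LinearMap.range_eq_top]
    rintro ⟨y, σ⟩
    obtain ⟨J, hJd⟩ : ∃ J : Matrix (Fin 4) (Fin 4) ℝ,
        J = fun m k => cf (bump N (pos k) 1) m := ⟨_, rfl⟩
    have hu : IsUnit J := by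
      rw [Matrix.isUnit_iff_isUnit_det, det_eq, hJd]
      exact isUnit_iff_ne_zero.2 hJ
    obtain ⟨w, hw⟩ := (Matrix.mulVec_surjective_iff_isUnit.2 hu)
      (y - (fderiv ℝ Ψ 0 (0, σ)).1)
    refine ⟨(w, σ), ?_⟩
    have e : ((w, σ) : (Fin 4 → ℝ) × ℝ)
        = (∑ k, w k • ((Pi.single k 1 : Fin 4 → ℝ), (0 : ℝ))) + (0, σ) := by
      ext m
      · simp [Prod.fst_sum, Finset.sum_apply, Pi.single_apply]
      · simp [Prod.snd_sum]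
    show fderiv ℝ Ψ 0 (w, σ) = (y, σ)
    rw [e, map_add, map_sum]
    simp only [map_smul, hcol]
    ext m
    · have := congrFun hw m
      simp only [Matrix.mulVec, dotProduct, hJd, Pi.sub_apply] at this
      simp only [Prod.fst_add, Prod.fst_sum, Prod.smul_mk, Pi.add_apply, Finset.sum_apply,
        Pi.smul_apply, smul_eq_mul]
      rw [eq_sub_iff_add_eq] at this
      rw [← this]
      congr 1
      exact Finset.sum_congr rfl fun k _ => mul_comm _ _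
    · simp [Prod.snd_sum, hsnd]
  have hmap := hst.map_nhds_eq_of_surj hsurj
  rw [hΨ0] at hmap
  have hU : ∀ᶠ x in 𝓝 (0 : (Fin 4 → ℝ) × ℝ), ∀ u v, N u v ≠ 0 →
      SignType.sign (A x u v) = SignType.sign (N u v) := by
    refine eventually_all.2 fun u => eventually_all.2 fun v => ?_
    have ht : Tendsto (fun x => A x u v) (𝓝 0) (𝓝 (N u v)) := by
      have := (hAc u v).continuous.tendsto 0
      rwa [hA0] at this
    rcases lt_trichotomy (N u v) 0 with h | h | h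
    · filter_upwards [ht.eventually (gt_mem_nhds h)] with x hx _
      rw [sign_neg h, sign_neg hx]
    · exact Eventually.of_forall fun x hx => (hx h).elim
    · filter_upwards [ht.eventually (lt_mem_nhds h)] with x hx _
      rw [sign_pos h, sign_pos hx]
  have hV : ∀ᶠ y in 𝓝 (0 : (Fin 4 → ℝ) × ℝ), ∃ x, Ψ x = y ∧ ∀ u v, N u v ≠ 0 →
      SignType.sign (A x u v) = SignType.sign (N u v) := by
    rw [← hmap, eventually_map]
    filter_upwards [hU] with x hx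
    exact ⟨x, rfl, hx⟩
  intro p hm hd
  have hcurve : Tendsto (fun l : ℝ => ((![l ^ 4 * p.coeff 0, l ^ 3 * p.coeff 1,
      l ^ 2 * p.coeff 2, l * p.coeff 3] : Fin 4 → ℝ), l)) (𝓝[>] 0) (𝓝 0) := by
    apply Tendsto.mono_left _ nhdsWithin_le_nhds
    have hc : Continuous (fun l : ℝ => ((![l ^ 4 * p.coeff 0, l ^ 3 * p.coeff 1,
      l ^ 2 * p.coeff 2, l * p.coeff 3] : Fin 4 → ℝ), l)) := by fun_prop
    convert hc.tendsto 0 using 2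
    ext m
    · fin_cases m <;> simp
    · simp
  obtain ⟨l, ⟨x, hx, hsg⟩, hl⟩ := ((hcurve.eventually hV).and self_mem_nhdsWithin).exists
  have hl' : (0 : ℝ) < l := hl
  rw [hΨ] at hx
  simp only [Prod.mk.injEq] at hx
  obtain ⟨hcf, hx2⟩ := hx
  refine ⟨fun u v => l⁻¹ * A x u v, ?_, ?_⟩
  · intro u v
    rw [sign_mul, sign_pos (inv_pos.2 hl'), one_mul]
    by_cases h : N u v = 0
    · have : A x u v = l * (S u v : ℝ) := by
        rw [hA]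
        simp only [h, hx2, if_true, zero_add]
        rw [Finset.sum_eq_zero, zero_add]
        intro k _
        rw [if_neg]
        intro e
        apply hpos k
        rw [← e]; exact h
      rw [this, sign_mul, sign_pos hl', one_mul]
      cases S u v <;> simp
    · rw [hsg u v h, hS u v h]
  · refine (charpoly_eq _).trans ?_
    have e0 := congrFun hcf 0
    have e1 := congrFun hcf 1
    have e2 := congrFun hcf 2
    have e3 := congrFun hcf 3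
    simp only [cf, Matrix.cons_val_zero, Matrix.cons_val_one, Matrix.cons_val] at e0 e1 e2 e3
    have f0 : c0 (fun u v => l⁻¹ * A x u v) = p.coeff 0 := by
      have : c0 (fun u v => l⁻¹ * A x u v) = l⁻¹ ^ 4 * c0 (A x) := by simp only [c0]; ring
      rw [this, e0]; field_simp
    have f1 : c1 (fun u v => l⁻¹ * A x u v) = p.coeff 1 := by
      have : c1 (fun u v => l⁻¹ * A x u v) = l⁻¹ ^ 3 * c1 (A x) := by simp only [c1]; ring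
      rw [this, e1]; field_simp
    have f2 : c2 (fun u v => l⁻¹ * A x u v) = p.coeff 2 := by
      have : c2 (fun u v => l⁻¹ * A x u v) = l⁻¹ ^ 2 * c2 (A x) := by simp only [c2]; ring
      rw [this, e2]; field_simp
    have f3 : c3 (fun u v => l⁻¹ * A x u v) = p.coeff 3 := by
      have : c3 (fun u v => l⁻¹ * A x u v) = l⁻¹ * c3 (A x) := by simp only [c3]; ring
      rw [this, e3]; field_simp
    rw [f0, f1, f2, f3, ← quartic_eq p hm hd]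

def L : List (Matrix (Fin 4) (Fin 4) ℤ × (Fin 4 → Fin 4 × Fin 4)) := [
  (!![1, 2, 0, 1; -1, -1, 0, 0; 0, -1, 2, 3; 0, 0, -1, -2], ![(0, 0), (0, 1), (1, 0), (2, 2)]),
  (!![1, 2, 0, -1; -1, -1, 0, 0; 0, 1, 2, 3; 0, 0, -1, -2], ![(0, 0), (0, 1), (1, 0), (2, 2)]),
  (!![1, 1, 0, 0; -2, -1, 1, 0; 0, 0, 2, 1; -1, 0, -3, -2], ![(0, 0), (0, 1), (1, 0), (2, 2)]),
  (!![1, 1, 0, 0; -2, -1, -1, 0; 0, 0, 2, 1; 1, 0, -3, -2], ![(0, 0), (0, 1), (1, 0), (2, 2)]),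
  (!![1, 1, 0, 0; -2, -1, 0, 1; 1, 0, 2, 3; 0, 0, -1, -2], ![(0, 0), (0, 1), (1, 0), (2, 2)]),
  (!![1, 1, 0, 0; -2, -1, 0, -1; -1, 0, 2, 3; 0, 0, -1, -2], ![(0, 0), (0, 1), (1, 0), (2, 2)]),
  (!![1, 2, 1, 0; -1, -1, 0, 0; 0, 0, 2, 1; 0, 1, -3, -2], ![(0, 0), (0, 1), (1, 0), (2, 2)]),
  (!![1, 2, -1, 0; -1, -1, 0, 0; 0, 0, 2, 1; 0, -1, -3, -2], ![(0, 0), (0, 1), (1, 0), (2, 2)]),
  (!![1, 1, 1, 0; -4, -2, 0, 0; -1, 0, 3, 1; 0, 0, -4, -2], ![(0, 0), (0, 1), (1, 1), (2, 2)]),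
  (!![1, 1, -1, 0; -4, -2, 0, 0; 1, 0, 3, 1; 0, 0, -4, -2], ![(0, 0), (0, 1), (1, 1), (2, 2)]),
  (!![2, 1, 0, 0; -4, -1, 0, 1; 0, 0, 2, 1; 0, -1, -4, -3], ![(0, 0), (0, 1), (1, 1), (2, 2)]),
  (!![2, 1, 0, 0; -4, -1, 0, -1; 0, 0, 2, 1; 0, 1, -4, -3], ![(0, 0), (0, 1), (1, 1), (2, 2)]),
  (!![1, 5, 0, 1; -1, -3, 0, 0; 0, 4, 3, 5; 0, 0, -1, -1], ![(0, 0), (0, 1), (1, 0), (2, 2)]),
  (!![1, 5, 0, -1; -1, -3, 0, 0; 0, -4, 3, 5; 0, 0, -1, -1], ![(0, 0), (0, 1), (1, 0), (2, 2)]),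
  (!![1, 1, 0, 0; -5, -3, 1, 0; 0, 0, 3, 1; 4, 0, -5, -1], ![(0, 0), (0, 1), (1, 0), (2, 2)]),
  (!![1, 1, 0, 0; -5, -3, -1, 0; 0, 0, 3, 1; -4, 0, -5, -1], ![(0, 0), (0, 1), (1, 0), (2, 2)]),
  (!![1, 1, 0, 0; -5, -3, 0, 1; -4, 0, 3, 5; 0, 0, -1, -1], ![(0, 0), (0, 1), (1, 0), (2, 2)]),
  (!![1, 1, 0, 0; -5, -3, 0, -1; 4, 0, 3, 5; 0, 0, -1, -1], ![(0, 0), (0, 1), (1, 0), (2, 2)]),
  (!![1, 5, 1, 0; -1, -3, 0, 0; 0, 0, 3, 1; 0, -4, -5, -1], ![(0, 0), (0, 1), (1, 0), (2, 2)]),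
  (!![1, 5, -1, 0; -1, -3, 0, 0; 0, 0, 3, 1; 0, 4, -5, -1], ![(0, 0), (0, 1), (1, 0), (2, 2)]),
  (!![2, 1, 0, 1; -2, -2, 0, 0; 0, 0, 2, 1; 2, 0, -8, -2], ![(0, 0), (0, 1), (1, 1), (2, 2)]),
  (!![2, 1, 0, -1; -2, -2, 0, 0; 0, 0, 2, 1; -2, 0, -8, -2], ![(0, 0), (0, 1), (1, 1), (2, 2)]),
  (!![2, 1, 0, 0; -2, -2, 1, 0; 0, 2, 2, 1; 0, 0, -8, -2], ![(0, 0), (0, 1), (1, 1), (2, 3)]),
  (!![2, 1, 0, 0; -2, -2, -1, 0; 0, -2, 2, 1; 0, 0, -8, -2], ![(0, 0), (0, 1), (1, 1), (2, 3)]),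
  (!![1, 1, 0, 1; -8, -4, 0, 0; 0, 0, 4, 1; -1, 0, -8, -1], ![(0, 0), (0, 1), (1, 1), (2, 2)]),
  (!![1, 1, 0, -1; -8, -4, 0, 0; 0, 0, 4, 1; 1, 0, -8, -1], ![(0, 0), (0, 1), (1, 1), (2, 2)]),
  (!![4, 1, 0, 0; -8, -1, 1, 0; 0, -1, 1, 1; 0, 0, -8, -4], ![(0, 0), (0, 1), (1, 1), (2, 2)]),
  (!![4, 1, 0, 0; -8, -1, -1, 0; 0, 1, 1, 1; 0, 0, -8, -4], ![(0, 0), (0, 1), (1, 1), (2, 2)]),
  (!![1, 1, 0, 0; -7, -4, 1, 0; 9, 0, 5, 1; 0, 0, -16, -2], ![(0, 0), (0, 1), (1, 0), (2, 2)]),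
  (!![1, 1, 0, 0; -7, -4, -1, 0; -9, 0, 5, 1; 0, 0, -16, -2], ![(0, 0), (0, 1), (1, 0), (2, 2)]),
  (!![1, 7, 1, 0; -1, -4, 0, 0; 0, -9, 5, 1; 0, 0, -16, -2], ![(0, 0), (0, 1), (1, 0), (2, 2)]),
  (!![1, 7, -1, 0; -1, -4, 0, 0; 0, 9, 5, 1; 0, 0, -16, -2], ![(0, 0), (0, 1), (1, 0), (2, 2)]),
  (!![1, 1, 0, 0; -22, -4, 1, 0; -81, 0, 5, 1; 0, 0, -1, -2], ![(0, 0), (0, 1), (1, 0), (2, 2)]),
  (!![1, 1, 0, 0; -22, -4, -1, 0; 81, 0, 5, 1; 0, 0, -1, -2], ![(0, 0), (0, 1), (1, 0), (2, 2)]),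
  (!![1, 22, 1, 0; -1, -4, 0, 0; 0, 81, 5, 1; 0, 0, -1, -2], ![(0, 0), (0, 1), (1, 0), (2, 2)]),
  (!![1, 22, -1, 0; -1, -4, 0, 0; 0, -81, 5, 1; 0, 0, -1, -2], ![(0, 0), (0, 1), (1, 0), (2, 2)]),
  (!![2, 1, 0, 0; -1, -5, 1, 0; 0, 0, 4, 1; 0, 81, -22, -1], ![(0, 0), (0, 1), (1, 1), (2, 2)]),
  (!![2, 1, 0, 0; -1, -5, -1, 0; 0, 0, 4, 1; 0, -81, -22, -1], ![(0, 0), (0, 1), (1, 1), (2, 2)]),
  (!![2, 1, 0, 0; -1, -5, 0, 1; 0, -81, 4, 22; 0, 0, -1, -1], ![(0, 0), (0, 1), (1, 1), (2, 2)]),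
  (!![2, 1, 0, 0; -1, -5, 0, -1; 0, 81, 4, 22; 0, 0, -1, -1], ![(0, 0), (0, 1), (1, 1), (2, 2)]),
  (!![2, 1, 0, 0; -16, -5, 1, 0; 0, 0, 4, 1; 0, -9, -7, -1], ![(0, 0), (0, 1), (1, 1), (2, 2)]),
  (!![2, 1, 0, 0; -16, -5, -1, 0; 0, 0, 4, 1; 0, 9, -7, -1], ![(0, 0), (0, 1), (1, 1), (2, 2)]),
  (!![2, 1, 0, 0; -16, -5, 0, 1; 0, 9, 4, 7; 0, 0, -1, -1], ![(0, 0), (0, 1), (1, 1), (2, 2)]),
  (!![2, 1, 0, 0; -16, -5, 0, -1; 0, -9, 4, 7; 0, 0, -1, -1], ![(0, 0), (0, 1), (1, 1), (2, 2)]),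
  (!![4, 1, 0, 0; -7, -1, 0, 1; 0, 0, 2, 1; -9, 0, -16, -5], ![(0, 0), (0, 1), (1, 0), (2, 3)]),
  (!![4, 1, 0, 0; -7, -1, 0, -1; 0, 0, 2, 1; 9, 0, -16, -5], ![(0, 0), (0, 1), (1, 0), (2, 3)]),
  (!![4, 7, 0, 1; -1, -1, 0, 0; 0, 0, 2, 1; 0, 9, -16, -5], ![(0, 0), (0, 1), (1, 0), (2, 3)]),
  (!![4, 7, 0, -1; -1, -1, 0, 0; 0, 0, 2, 1; 0, -9, -16, -5], ![(0, 0), (0, 1), (1, 0), (2, 3)]),
  (!![4, 1, 0, 0; -22, -1, 0, 1; 0, 0, 2, 1; 81, 0, -1, -5], ![(0, 0), (0, 1), (1, 0), (2, 2)]),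
  (!![4, 1, 0, 0; -22, -1, 0, -1; 0, 0, 2, 1; -81, 0, -1, -5], ![(0, 0), (0, 1), (1, 0), (2, 2)]),
  (!![4, 22, 0, 1; -1, -1, 0, 0; 0, 0, 2, 1; 0, -81, -1, -5], ![(0, 0), (0, 1), (1, 0), (2, 2)]),
  (!![4, 22, 0, -1; -1, -1, 0, 0; 0, 0, 2, 1; 0, 81, -1, -5], ![(0, 0), (0, 1), (1, 0), (2, 2)]),
  (!![5, 1, 1, 0; -1, -2, 0, 0; 0, 0, 1, 1; -81, 0, -22, -4], ![(0, 0), (0, 1), (1, 1), (2, 2)]),
  (!![5, 1, -1, 0; -1, -2, 0, 0; 0, 0, 1, 1; 81, 0, -22, -4], ![(0, 0), (0, 1), (1, 1), (2, 2)]),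
  (!![5, 1, 0, 1; -1, -2, 0, 0; 81, 0, 1, 22; 0, 0, -1, -4], ![(0, 0), (0, 1), (1, 1), (2, 2)]),
  (!![5, 1, 0, -1; -1, -2, 0, 0; -81, 0, 1, 22; 0, 0, -1, -4], ![(0, 0), (0, 1), (1, 1), (2, 2)]),
  (!![5, 1, 1, 0; -16, -2, 0, 0; 0, 0, 1, 1; 9, 0, -7, -4], ![(0, 0), (0, 1), (1, 1), (2, 2)]),
  (!![5, 1, -1, 0; -16, -2, 0, 0; 0, 0, 1, 1; -9, 0, -7, -4], ![(0, 0), (0, 1), (1, 1), (2, 2)]),
  (!![5, 1, 0, 1; -16, -2, 0, 0; -9, 0, 1, 7; 0, 0, -1, -4], ![(0, 0), (0, 1), (1, 1), (2, 2)]),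
  (!![5, 1, 0, -1; -16, -2, 0, 0; 9, 0, 1, 7; 0, 0, -1, -4], ![(0, 0), (0, 1), (1, 1), (2, 2)]),
  (!![2, 1, 1, 0; -18, -6, 0, 0; 2, 0, 10, 1; 0, 0, -72, -6], ![(0, 0), (0, 1), (1, 1), (2, 2)]),
  (!![2, 1, -1, 0; -18, -6, 0, 0; -2, 0, 10, 1; 0, 0, -72, -6], ![(0, 0), (0, 1), (1, 1), (2, 2)]),
  (!![6, 1, 0, 0; -18, -2, 0, 1; 0, 0, 6, 1; 0, 2, -72, -10], ![(0, 0), (0, 1), (1, 1), (2, 2)]),
  (!![6, 1, 0, 0; -18, -2, 0, -1; 0, 0, 6, 1; 0, -2, -72, -10], ![(0, 0), (0, 1), (1, 1), (2, 2)])]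

def sg (z : ℤ) : SignType := if 0 < z then 1 else if z < 0 then -1 else 0

lemma sg_eq (z : ℤ) : SignType.sign (z : ℝ) = sg z := by
  unfold sg
  split_ifs with h1 h2
  · exact sign_pos (by exact_mod_cast h1)
  · exact sign_neg (by exact_mod_cast h2)
  · have : z = 0 := by omega
    simp [this]

lemma good : ∀ q ∈ L, (∀ m, cf q.1 m = 0) ∧ (∀ k, q.1 (q.2 k).1 (q.2 k).2 ≠ 0) ∧
    c0 (fun m k => cf (bump q.1 (q.2 k) 1) m) ≠ 0 := by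
  decide +kernel

def Cov0 (z : ℤ) (u v a b c d : Fin 4) (σ τ : SignType) : Prop :=
  z = 0 ∨ (T u v ≠ 0 ∧ sg z = T u v) ∨ (u = a ∧ v = b ∧ sg z = σ) ∨ (u = c ∧ v = d ∧ sg z = τ)

instance (z : ℤ) (u v a b c d : Fin 4) (σ τ : SignType) : Decidable (Cov0 z u v a b c d σ τ) :=
  @instDecidableOr _ _ inferInstance (@instDecidableOr _ _ inferInstance
    (@instDecidableOr _ _ inferInstance inferInstance))

def Cov1 (N : Matrix (Fin 4) (Fin 4) ℤ) (u a b c d : Fin 4) (σ τ : SignType) : Bool :=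
  decide (∀ v, Cov0 (N u v) u v a b c d σ τ)

def Cov (a b c d : Fin 4) (σ τ : SignType) : Bool :=
  L.any fun q => decide (∀ u, Cov1 q.1 u a b c d σ τ = true)

def Cond (a b c d : Fin 4) (σ τ : SignType) : Bool :=
  decide (a.val < 2) && decide (2 ≤ b.val) && decide (2 ≤ c.val) && decide (d.val < 2) &&
    decide (σ ≠ 0) && decide (τ ≠ 0)

def Cov2 (a b c : Fin 4) : Bool :=
  decide (∀ d : Fin 4, ∀ σ τ : SignType, Cond a b c d σ τ = true → Cov a b c d σ τ = true)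

lemma cover0 : ∀ a b c : Fin 4, Cov2 a b c = true := by
  decide +kernel

lemma cover : ∀ a b c d : Fin 4, ∀ σ τ : SignType, a.val < 2 → 2 ≤ b.val → 2 ≤ c.val →
    d.val < 2 → σ ≠ 0 → τ ≠ 0 → ∃ q ∈ L, ∀ u v, Cov0 (q.1 u v) u v a b c d σ τ := by
  intro a b c d σ τ h1 h2 h3 h4 h5 h6
  have h := of_decide_eq_true (cover0 a b c) d σ τ (by simp [Cond, h1, h2, h3, h4, h5, h6])
  obtain ⟨q, hq, h⟩ := List.any_eq_true.1 h
  exact ⟨q, hq, fun u => of_decide_eq_true (of_decide_eq_true h u)⟩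

lemma quad (u v : ℝ) : ∃ a b c d : ℝ, 0 < a ∧ 0 < b ∧ c < 0 ∧ d < 0 ∧ a + d = -u ∧
    a * d - b * c = v := by
  refine ⟨|u| + |v| + 1 - u, 1, -(v + (|u| + |v| + 1 - u) * (|u| + |v| + 1)),
    -(|u| + |v| + 1), ?_, one_pos, ?_, ?_, by ring, by ring⟩
  · linarith [le_abs_self u, abs_nonneg v]
  · nlinarith [le_abs_self u, abs_nonneg v, abs_nonneg u, neg_abs_le v]
  · linarith [abs_nonneg u, abs_nonneg v]

lemma sign_cast (s : SignType) : SignType.sign (s : ℝ) = s := by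
  cases s <;> simp

lemma triangular (S : Matrix (Fin 4) (Fin 4) SignType) (hS : Superpattern S T)
    (h : (∀ a b : Fin 4, a.val < 2 → 2 ≤ b.val → S a b = 0) ∨
      (∀ c d : Fin 4, 2 ≤ c.val → d.val < 2 → S c d = 0)) : SpectrallyArbitrary S := by
  intro p hm hd
  have hp : p.IsMonicOfDegree (2 + 2) := ⟨hd, hm⟩
  obtain ⟨f, g, hf, hg, rfl⟩ := hp.eq_isMonicOfDegree_two_mul_isMonicOfDegree
  obtain ⟨u, v, rfl⟩ := isMonicOfDegree_two_iff.1 hf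
  obtain ⟨u', v', rfl⟩ := isMonicOfDegree_two_iff.1 hg
  obtain ⟨a, b, c, d, ha, hb, hc, hd, h1, h2⟩ := quad u v
  obtain ⟨a', b', c', d', ha', hb', hc', hd', h1', h2'⟩ := quad u' v'
  have h00 := hS 0 0 (by decide)
  have h01 := hS 0 1 (by decide)
  have h10 := hS 1 0 (by decide)
  have h11 := hS 1 1 (by decide)
  have h22 := hS 2 2 (by decide)
  have h23 := hS 2 3 (by decide)
  have h32 := hS 3 2 (by decide)
  have h33 := hS 3 3 (by decide)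
  refine ⟨!![a, b, S 0 2, S 0 3; c, d, S 1 2, S 1 3; S 2 0, S 2 1, a', b'; S 3 0, S 3 1, c', d'],
    ?_, ?_⟩
  · intro i j
    fin_cases i <;> fin_cases j <;>
      simp [sign_cast, h00, h01, h10, h11, h22, h23, h32, h33, T, ha, hb, hc, hd, ha', hb', hc',
        hd']
  · rw [charpoly_eq]
    have hu : u = -(a + d) := by linarith
    have hu' : u' = -(a' + d') := by linarith
    subst hu hu' h2 h2'
    apply Polynomial.funext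
    intro x
    rcases h with h | h
    · simp [c0, c1, c2, c3, h 0 2 (by decide) (by decide), h 0 3 (by decide) (by decide),
        h 1 2 (by decide) (by decide), h 1 3 (by decide) (by decide)]
      ring
    · simp [c0, c1, c2, c3, h 2 0 (by decide) (by decide), h 2 1 (by decide) (by decide),
        h 3 0 (by decide) (by decide), h 3 1 (by decide) (by decide)]
      ring

theorem result : ∀ S : Matrix (Fin 4) (Fin 4) SignType,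
    Superpattern S T → SpectrallyArbitrary S := by
  intro S hS
  by_cases h : (∀ a b : Fin 4, a.val < 2 → 2 ≤ b.val → S a b = 0) ∨
      (∀ c d : Fin 4, 2 ≤ c.val → d.val < 2 → S c d = 0)
  · exact triangular S hS h
  push Not at h
  obtain ⟨⟨a, b, ha, hb, hab⟩, ⟨c, d, hc, hd, hcd⟩⟩ := h
  obtain ⟨q, hq, hc⟩ := cover a b c d (S a b) (S c d) ha hb hc hd hab hcd
  obtain ⟨g1, g2, g3⟩ := good q hq
  refine NJ (fun u v => (q.1 u v : ℝ)) S q.2 ?_ ?_ ?_ ?_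
  · intro u v huv
    rw [sg_eq]
    rcases hc u v with h0 | ⟨h1, h2⟩ | ⟨rfl, rfl, h2⟩ | ⟨rfl, rfl, h2⟩
    · exact (huv (by simp [h0])).elim
    · rw [h2, hS u v h1]
    · exact h2
    · exact h2
  · funext m
    rw [cf_cast, g1]; simp
  · intro k
    exact_mod_cast g2 k
  · have e : ∀ k, bump (fun u v => (q.1 u v : ℝ)) (q.2 k) 1
        = fun u v => ((bump q.1 (q.2 k) 1 u v : ℤ) : ℝ) := by
      intro k; funext u v
      simp only [bump]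
      split_ifs <;> simp
    simp only [e, cf_cast]
    have := cf_cast (fun m k => cf (bump q.1 (q.2 k) 1) m) 0
    simp only [cf, Matrix.cons_val_zero] at this ⊢
    rw [this]
    exact_mod_cast g3

end Pool.Agent.Results.MP_b6277e_co.Yes
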